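import Mathlib
import Pool.Agent.Helper95.FL.Stmts2

set_option autoImplicit false

/-!
# Project FL, piece A-6: cycles of length five
-/

namespace Pool.Agent.Helper87.FL

open Pool.Agent.Helper95.FL
open scoped Classical

variable {X V : Type} (𝒞 : Cx X V)

theorem adj_symm {v w : V} (h : 𝒞.Adj v w) : 𝒞.Adj w v := by
  obtain ⟨hne, x, h1, h2⟩ := h
  exact ⟨fun h => hne h.symm, x, h2, h1⟩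

theorem fin3_aux (a b : Fin 3) (h1 : a = b + 1) (h2 : b = a + 1) : False := by
  revert a b
  decide

theorem el_anti (v w : V) : 𝒞.el v w + 𝒞.el w v = 0 := by
  funext e
  simp only [Pi.add_apply, Pi.zero_apply, Cx.el]
  by_cases h1 : 𝒞.ty w = 𝒞.ty v + 1 ∧ e = (v, w)
  · by_cases h2 : 𝒞.ty v = 𝒞.ty w + 1 ∧ e = (w, v)
    · exact absurd h2.1 (fun h => fin3_aux _ _ h1.1 h)
    · rw [if_pos h1, if_neg h2, if_pos h1]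
      norm_num
  · by_cases h2 : 𝒞.ty v = 𝒞.ty w + 1 ∧ e = (w, v)
    · rw [if_neg h1, if_pos h2, if_pos h2]
      norm_num
    · rw [if_neg h1, if_neg h2, if_neg h2, if_neg h1]
      norm_num

theorem third (a b : Fin 3) (hab : a ≠ b) :
    ∃ s : Fin 3, (s + 1 = a ∧ s + 2 = b) ∨ (s + 1 = b ∧ s + 2 = a) := by
  revert a b
  decide

theorem nb_of {a b : Fin 3} (hab : a ≠ b) {x y : X} (ha : 𝒞.vert a x = 𝒞.vert a y)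
    (hb : 𝒞.vert b x = 𝒞.vert b y) : 𝒞.Nb x y := by
  obtain ⟨s, ⟨h1, h2⟩ | ⟨h1, h2⟩⟩ := third a b hab
  · refine ⟨s, ?_⟩
    unfold Cx.edge
    rw [h1, h2, ha, hb]
  · refine ⟨s, ?_⟩
    unfold Cx.edge
    rw [h1, h2, ha, hb]

theorem cyc5_fan (v₁ v₂ v₃ v₄ v₅ : V) : 𝒞.cyc5 v₁ v₂ v₃ v₄ v₅
    = 𝒞.cyc3 v₁ v₂ v₃ + 𝒞.cyc3 v₁ v₃ v₄ + 𝒞.cyc3 v₁ v₄ v₅ := by
  have h1 := el_anti 𝒞 v₁ v₃
  have h2 := el_anti 𝒞 v₁ v₄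
  unfold Cx.cyc5 Cx.cyc3
  linear_combination (-1 : ℤ) • h1 - (1 : ℤ) • h2

theorem cyc5_rot (v₁ v₂ v₃ v₄ v₅ : V) :
    𝒞.cyc5 v₁ v₂ v₃ v₄ v₅ = 𝒞.cyc5 v₂ v₃ v₄ v₅ v₁ := by
  unfold Cx.cyc5
  abel

theorem is5_rot {v₁ v₂ v₃ v₄ v₅ : V} (h : 𝒞.Is5 v₁ v₂ v₃ v₄ v₅) :
    𝒞.Is5 v₂ v₃ v₄ v₅ v₁ := by
  obtain ⟨⟨n1, n2, n3, n4, n5⟩, a1, a2, a3, a4, a5⟩ := h
  exact ⟨⟨n2, n3, n4, n5, n1⟩, a2, a3, a4, a5, a1⟩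

/-- The types of two triangles with a common edge. -/
theorem types_aux (a b c d : Fin 3) (h1 : a ≠ c) (h2 : c ≠ d) (h3 : a ≠ d) (h4 : a ≠ b)
    (h5 : b ≠ c) : b = d := by
  revert a b c d
  decide

theorem types_pm (a b c : Fin 3) (h1 : a ≠ b) (h2 : b ≠ c) (h3 : a ≠ c) :
    (b = a + 1 ∧ a = c + 1) ∨ (a = b + 1 ∧ c = a + 1) := by
  revert a b c
  decide

/-- The conclusion of the piece for one cycle. -/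
def Concl (v₁ v₂ v₃ v₄ v₅ : V) : Prop :=
  ∃ x y z, 𝒞.Nb x y ∧ 𝒞.Nb y z ∧
      (𝒞.cyc5 v₁ v₂ v₃ v₄ v₅ = 𝒞.chi x - 𝒞.chi y + 𝒞.chi z ∨
        𝒞.cyc5 v₁ v₂ v₃ v₄ v₅ = -(𝒞.chi x - 𝒞.chi y + 𝒞.chi z))

theorem concl_rot {v₁ v₂ v₃ v₄ v₅ : V} (h : Concl 𝒞 v₂ v₃ v₄ v₅ v₁) :
    Concl 𝒞 v₁ v₂ v₃ v₄ v₅ := by
  obtain ⟨x, y, z, h1, h2, h3⟩ := h
  refine ⟨x, y, z, h1, h2, ?_⟩
  rw [cyc5_rot]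
  exact h3

theorem fan (h : StCyc3) [Fintype X] {d k : ℕ} (hN : 𝒞.Nice d k) {v₁ v₂ v₃ v₄ v₅ : V}
    (h5 : 𝒞.Is5 v₁ v₂ v₃ v₄ v₅) (h13 : 𝒞.Adj v₁ v₃) (h14 : 𝒞.Adj v₁ v₄) :
    Concl 𝒞 v₁ v₂ v₃ v₄ v₅ := by
  obtain ⟨-, a12, a23, a34, a45, a51⟩ := h5
  obtain ⟨x, ⟨x1, x2, x3⟩, hx⟩ := h X V 𝒞 d k hN v₁ v₂ v₃ ⟨a12, a23, adj_symm 𝒞 h13⟩
  obtain ⟨y, ⟨y1, y3, y4⟩, hy⟩ := h X V 𝒞 d k hN v₁ v₃ v₄ ⟨h13, a34, adj_symm 𝒞 h14⟩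
  obtain ⟨z, ⟨z1, z4, z5⟩, hz⟩ := h X V 𝒞 d k hN v₁ v₄ v₅ ⟨h14, a45, a51⟩
  have t2 : 𝒞.ty v₂ = 𝒞.ty v₄ := types_aux _ _ _ _ h13.1 a34.1 h14.1 a12.1 a23.1
  have nxy : 𝒞.Nb x y := nb_of 𝒞 h13.1 (x1.trans y1.symm) (x3.trans y3.symm)
  have nyz : 𝒞.Nb y z := nb_of 𝒞 h14.1 (y1.trans z1.symm) (y4.trans z4.symm)
  refine ⟨x, y, z, nxy, nyz, ?_⟩
  rw [cyc5_fan]
  rcases types_pm _ _ _ h13.1 a34.1 h14.1 with ⟨p1, p2⟩ | ⟨p1, p2⟩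
  · -- `ty v₃ = ty v₁ + 1`, `ty v₁ = ty v₄ + 1`
    right
    have ex : 𝒞.cyc3 v₁ v₂ v₃ = -𝒞.chi x := by
      rcases hx with ⟨q, -⟩ | ⟨-, q⟩
      · exact (fin3_aux _ _ p2 (t2 ▸ q)).elim
      · exact q
    have ey : 𝒞.cyc3 v₁ v₃ v₄ = 𝒞.chi y := by
      rcases hy with ⟨-, q⟩ | ⟨q, -⟩
      · exact q
      · exact (fin3_aux _ _ p1 q).elim
    have ez : 𝒞.cyc3 v₁ v₄ v₅ = -𝒞.chi z := by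
      rcases hz with ⟨q, -⟩ | ⟨-, q⟩
      · exact (fin3_aux _ _ p2 q).elim
      · exact q
    rw [ex, ey, ez]
    abel
  · left
    have ex : 𝒞.cyc3 v₁ v₂ v₃ = 𝒞.chi x := by
      rcases hx with ⟨-, q⟩ | ⟨q, -⟩
      · exact q
      · exact (fin3_aux _ _ p2 (t2 ▸ q)).elim
    have ey : 𝒞.cyc3 v₁ v₃ v₄ = -𝒞.chi y := by
      rcases hy with ⟨q, -⟩ | ⟨-, q⟩
      · exact (fin3_aux _ _ p1 q).elim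
      · exact q
    have ez : 𝒞.cyc3 v₁ v₄ v₅ = 𝒞.chi z := by
      rcases hz with ⟨-, q⟩ | ⟨q, -⟩
      · exact q
      · exact (fin3_aux _ _ p2 q).elim
    rw [ex, ey, ez]
    abel

theorem one_chord (h : StCyc3) [Fintype X] {d k : ℕ} (hN : 𝒞.Nice d k) {v₁ v₂ v₃ v₄ v₅ : V}
    (h5 : 𝒞.Is5 v₁ v₂ v₃ v₄ v₅) (h13 : 𝒞.Adj v₁ v₃) : Concl 𝒞 v₁ v₂ v₃ v₄ v₅ := by
  obtain ⟨⟨n13, n24, n35, n41, n52⟩, a12, a23, a34, a45, a51⟩ := id h5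
  rcases hN.chord4 v₁ v₃ v₄ v₅ (fun e => n41 e.symm) n35 h13 a34 a45 a51 with h14 | h35
  · exact fan 𝒞 h hN h5 h13 h14
  · refine concl_rot 𝒞 (concl_rot 𝒞 ?_)
    exact fan 𝒞 h hN (is5_rot 𝒞 (is5_rot 𝒞 h5)) h35 (adj_symm 𝒞 h13)

theorem stCyc5 (h : StCyc3) : StCyc5 := by
  intro X V _ 𝒞 d k hN v₁ v₂ v₃ v₄ v₅ h5
  have key : Concl 𝒞 v₁ v₂ v₃ v₄ v₅ := by
    obtain ⟨⟨n13, n24, n35, n41, n52⟩, a12, a23, a34, a45, a51⟩ := id h5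
    rcases hN.chord5 v₁ v₂ v₃ v₄ v₅ n13 n24 n35 n41 n52 a12 a23 a34 a45 a51 with
      c | c | c | c | c
    · exact one_chord 𝒞 h hN h5 c
    · exact concl_rot 𝒞 (one_chord 𝒞 h hN (is5_rot 𝒞 h5) c)
    · exact concl_rot 𝒞 (concl_rot 𝒞 (one_chord 𝒞 h hN (is5_rot 𝒞 (is5_rot 𝒞 h5)) c))
    · exact concl_rot 𝒞 (concl_rot 𝒞 (concl_rot 𝒞
        (one_chord 𝒞 h hN (is5_rot 𝒞 (is5_rot 𝒞 (is5_rot 𝒞 h5))) c)))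
    · exact concl_rot 𝒞 (concl_rot 𝒞 (concl_rot 𝒞 (concl_rot 𝒞
        (one_chord 𝒞 h hN (is5_rot 𝒞 (is5_rot 𝒞 (is5_rot 𝒞 (is5_rot 𝒞 h5)))) c))))
  exact key

end Pool.Agent.Helper87.FL
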